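import Pool.Agent.Lib_helper50.A56.Final

namespace Pool.Agent.Results.MP_a55cb8_lc.Solver2

open A56

/-- Let `2 ≤ w ≤ 3`, where `w = 3` or there is a program multiplying `m × m` matrices with
`O((m+1)^w)` operations, and let `0 < φ ≤ 1/6`.  There is one program which solves all systems
`A x = b` with `σ_(k+1) ≤ κ σ_n` with at most
`C (k^w + κ N + min {k N, k³, κ^(2/3-φ) k^(5/3-φ) N^(1/3+φ), κ k^(3/2-φ) n^(1/2+φ),
κ k^(7/4-φ) N^(1/4+φ)}) (1 + log (n κ / ε))^C` operations on every run, `N` = number of nonzero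
entries of `A`. -/
theorem result : ∀ w φ : ℝ, 2 ≤ w → w ≤ 3 → 0 < φ → φ ≤ 1 / 6 →
    (w = 3 ∨ ∃ (Mul : Tm (.arr (.arr .real))) (c : ℕ), IsMul Mul c w) → MainW w φ :=
  fun w φ h2 h3 hφ hφ6 h => main_result w φ h2 h3 hφ hφ6 h

end Pool.Agent.Results.MP_a55cb8_lc.Solver2
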